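import Mathlib
import Pool.Agent.TH278.DX.Defs3

/-!
# Distance of a row-thin, column-full band operator to the commutant of the translations
-/

set_option autoImplicit false

namespace Pool.Agent.TH227.J5186

open scoped InnerProductSpace

section aux

variable {G Q : Type} [Fintype Q]

theorem lp_sum_sq (f : lp (fun _ : G => EuclideanSpace ℂ Q) 2) (s : Finset G) :
    ∑ i ∈ s, ‖f i‖ ^ 2 ≤ ‖f‖ ^ 2 := by
  have h := lp.sum_rpow_le_norm_rpow (p := 2) (by norm_num) f s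
  have e : (2 : ENNReal).toReal = ((2 : ℕ) : ℝ) := by norm_num
  rw [e] at h
  simpa only [Real.rpow_natCast] using h

/-- triangle inequality in a finite sum of copies of `ℂ^Q` -/
theorem tri {ι : Type} [Fintype ι] (x y z : ι → EuclideanSpace ℂ Q) (A C D E : ℝ) (_ : 0 ≤ A)
    (hC : 0 ≤ C) (hD : 0 ≤ D) (hE : 0 ≤ E)
    (h1 : A ^ 2 ≤ ∑ i, ‖x i‖ ^ 2) (h2 : ∑ i, ‖x i - z i‖ ^ 2 ≤ C ^ 2)
    (h3 : ∑ i, ‖y i - z i‖ ^ 2 ≤ D ^ 2) (h4 : ∑ i, ‖y i‖ ^ 2 ≤ E ^ 2) : A ≤ C + D + E := by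
  let X : PiLp 2 (fun _ : ι => EuclideanSpace ℂ Q) := WithLp.toLp 2 x
  let Y : PiLp 2 (fun _ : ι => EuclideanSpace ℂ Q) := WithLp.toLp 2 y
  let Z : PiLp 2 (fun _ : ι => EuclideanSpace ℂ Q) := WithLp.toLp 2 z
  have n1 : ‖X‖ ^ 2 = ∑ i, ‖x i‖ ^ 2 := by rw [PiLp.norm_sq_eq_of_L2]
  have n2 : ‖X - Z‖ ^ 2 = ∑ i, ‖x i - z i‖ ^ 2 := by rw [PiLp.norm_sq_eq_of_L2]; rfl
  have n3 : ‖Y - Z‖ ^ 2 = ∑ i, ‖y i - z i‖ ^ 2 := by rw [PiLp.norm_sq_eq_of_L2]; rfl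
  have n4 : ‖Y‖ ^ 2 = ∑ i, ‖y i‖ ^ 2 := by rw [PiLp.norm_sq_eq_of_L2]
  have k1 : A ≤ ‖X‖ := le_of_sq_le_sq (by rw [n1]; exact h1) (norm_nonneg _)
  have k2 : ‖X - Z‖ ≤ C := le_of_sq_le_sq (by rw [n2]; exact h2) hC
  have k3 : ‖Y - Z‖ ≤ D := le_of_sq_le_sq (by rw [n3]; exact h3) hD
  have k4 : ‖Y‖ ≤ E := le_of_sq_le_sq (by rw [n4]; exact h4) hE
  have e : X = (X - Z) - (Y - Z) + Y := by abel
  have t1 : ‖X‖ ≤ ‖X - Z‖ + ‖Y - Z‖ + ‖Y‖ := by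
    conv_lhs => rw [e]
    exact (norm_add_le _ _).trans (add_le_add_left (norm_sub_le _ _) _)
  linarith

end aux

theorem far {G Q : Type} [Group G] [Fintype Q] [DecidableEq Q] [Nonempty Q] (E : Finset G)
    (F : G → ℝ) (hF : ∀ g, 0 ≤ F g) (Y : G → (EuclideanSpace ℂ Q →L[ℂ] EuclideanSpace ℂ Q))
    (hY : ∀ g, ‖Y g‖ ≤ 1) (ε δ : ℝ) (hε : ε ≤ 1) (hδ0 : 0 ≤ δ) (hδ : δ ≤ 1)
    (hYtr : ∀ g ∈ E, (1 - ε) * Fintype.card Q ≤ ∑ b : Q, ‖Y g (EuclideanSpace.single b 1)‖ ^ 2)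
    (w : G → G → ℝ) (hw : ∀ s v, w s v = 0 ∨ w s v = 1)
    (hrow : ∑ g ∈ E, F g * w 1 g ≤ δ) (hcol : 1 - δ ≤ ∑ g ∈ E, F g * w g⁻¹ 1)
    (T : lp (fun _ : G => EuclideanSpace ℂ Q) 2 →L[ℂ] lp (fun _ : G => EuclideanSpace ℂ Q) 2)
    (hT : ∀ (φ : lp (fun _ : G => EuclideanSpace ℂ Q) 2) (s : G),
        T φ s = ∑ g ∈ E, ((Real.sqrt (F g) * w s (s * g) : ℝ) : ℂ) • Y g (φ (s * g)))
    (σ : G → (lp (fun _ : G => EuclideanSpace ℂ Q) 2 →L[ℂ] lp (fun _ : G => EuclideanSpace ℂ Q) 2))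
    (hσ : ∀ (t : G) (φ : lp (fun _ : G => EuclideanSpace ℂ Q) 2) (s : G),
      σ t φ s = φ (t⁻¹ * s))
    (B : lp (fun _ : G => EuclideanSpace ℂ Q) 2 →L[ℂ] lp (fun _ : G => EuclideanSpace ℂ Q) 2)
    (hB : ∀ t, B * σ t = σ t * B) :
    Real.sqrt ((1 - δ) * (1 - ε)) - Real.sqrt δ ≤ 2 * ‖T - B‖ := by
  classical
  obtain ⟨dd, hdd⟩ : ∃ dd : G → Q → lp (fun _ : G => EuclideanSpace ℂ Q) 2,
    dd = fun v b => lp.single (E := fun _ : G => EuclideanSpace ℂ Q) 2 v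
      (EuclideanSpace.single b (1 : ℂ)) := ⟨_, rfl⟩
  have dd_self : ∀ v b, dd v b v = EuclideanSpace.single b (1 : ℂ) := by
    intro v b; rw [hdd]; exact lp.single_apply_self 2 v _
  have dd_ne : ∀ v b j, j ≠ v → dd v b j = 0 := by
    intro v b j hj; rw [hdd]; exact lp.single_apply_ne 2 v _ hj
  have dd_norm : ∀ v b, ‖dd v b‖ = 1 := by
    intro v b; rw [hdd]; simp only; rw [lp.norm_single (by norm_num)]; simp
  obtain ⟨D, hD⟩ : ∃ D, D = T - B := ⟨_, rfl⟩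
  rw [← hD]
  have hDapp : ∀ φ s, D φ s = T φ s - B φ s := by
    intro φ s; rw [hD]; rfl
  -- the matrix of `B`
  obtain ⟨β, hβ⟩ : ∃ β : G → Q → EuclideanSpace ℂ Q, β = fun g b => B (dd 1 b) g⁻¹ := ⟨_, rfl⟩
  have hσdd : ∀ g b, σ g (dd 1 b) = dd g b := by
    intro g b
    ext1
    funext s
    rw [hσ]
    by_cases h : s = g
    · rw [h, inv_mul_cancel, dd_self, dd_self]
    · rw [dd_ne g b s h, dd_ne 1 b (g⁻¹ * s)]
      intro h'
      apply h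
      have : g * (g⁻¹ * s) = g * 1 := by rw [h']
      simpa using this
  have hBrow : ∀ g b, B (dd g b) 1 = β g b := by
    intro g b
    have h1 : B (σ g (dd 1 b)) = σ g (B (dd 1 b)) := by
      have := congrArg (fun L : lp (fun _ : G => EuclideanSpace ℂ Q) 2 →L[ℂ]
        lp (fun _ : G => EuclideanSpace ℂ Q) 2 => L (dd 1 b)) (hB g)
      simpa using this
    rw [← hσdd g b, h1, hσ, hβ, mul_one]
  have hTcol : ∀ g ∈ E, ∀ b, T (dd 1 b) g⁻¹ =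
      ((Real.sqrt (F g) * w g⁻¹ 1 : ℝ) : ℂ) • Y g (EuclideanSpace.single b 1) := by
    intro g hg b
    rw [hT, Finset.sum_eq_single g]
    · rw [inv_mul_cancel, dd_self]
    · intro g' _ hne
      rw [dd_ne 1 b (g⁻¹ * g'), map_zero, smul_zero]
      intro h'
      apply hne
      have : g * (g⁻¹ * g') = g * 1 := by rw [h']
      simpa using this
    · intro h; exact absurd hg h
  have hTrow : ∀ g ∈ E, ∀ b, T (dd g b) 1 =
      ((Real.sqrt (F g) * w 1 g : ℝ) : ℂ) • Y g (EuclideanSpace.single b 1) := by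
    intro g hg b
    rw [hT, Finset.sum_eq_single g]
    · rw [one_mul, dd_self]
    · intro g' _ hne
      rw [one_mul, dd_ne g b g' hne, map_zero, smul_zero]
    · intro h; exact absurd hg h
  obtain ⟨n, hn⟩ : ∃ n : ℝ, n = Fintype.card Q := ⟨_, rfl⟩
  have hn0 : 0 < n := by rw [hn]; exact_mod_cast Fintype.card_pos
  -- column estimate
  have hcolb : ∀ b, ∑ g ∈ E, ‖D (dd 1 b) g⁻¹‖ ^ 2 ≤ ‖D‖ ^ 2 := by
    intro b
    have h1 := lp_sum_sq (D (dd 1 b)) (E.image fun g => g⁻¹)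
    rw [Finset.sum_image (fun a _ b _ h => inv_injective h)] at h1
    have h2 : ‖D (dd 1 b)‖ ≤ ‖D‖ := by
      have := D.le_opNorm (dd 1 b)
      rwa [dd_norm, mul_one] at this
    exact h1.trans (pow_le_pow_left₀ (norm_nonneg _) h2 2)
  have hcolE : ∑ i : E × Q, ‖((Real.sqrt (F i.1) * w (i.1 : G)⁻¹ 1 : ℝ) : ℂ) •
      Y i.1 (EuclideanSpace.single i.2 1) - β i.1 i.2‖ ^ 2 ≤ (Real.sqrt n * ‖D‖) ^ 2 := by
    rw [Fintype.sum_prod_type, Finset.sum_comm]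
    have h1 : ∀ b : Q, ∑ g : E, ‖((Real.sqrt (F g) * w (g : G)⁻¹ 1 : ℝ) : ℂ) •
        Y g (EuclideanSpace.single b 1) - β g b‖ ^ 2 ≤ ‖D‖ ^ 2 := by
      intro b
      refine le_trans (le_of_eq ?_) (hcolb b)
      rw [← Finset.sum_coe_sort E (fun g => ‖D (dd 1 b) g⁻¹‖ ^ 2)]
      refine Finset.sum_congr rfl fun g _ => ?_
      rw [hDapp, hTcol g g.2 b, hβ]
    refine (Finset.sum_le_sum fun b _ => h1 b).trans ?_
    rw [Finset.sum_const, Finset.card_univ, nsmul_eq_mul, mul_pow, Real.sq_sqrt hn0.le, hn]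
  -- row estimate
  have hrowb : ∀ b : Q, ∑ g ∈ E, ∑ c : Q, ‖(D (dd g c) 1) b‖ ^ 2 ≤ ‖D‖ ^ 2 := by
    intro b
    have h1 := lp_sum_sq (ContinuousLinearMap.adjoint D (dd 1 b)) E
    have h2 : ‖ContinuousLinearMap.adjoint D (dd 1 b)‖ ≤ ‖D‖ := by
      have := (ContinuousLinearMap.adjoint D).le_opNorm (dd 1 b)
      rw [dd_norm, mul_one] at this
      rwa [LinearIsometryEquiv.norm_map] at this
    refine le_trans (le_of_eq ?_) (h1.trans (pow_le_pow_left₀ (norm_nonneg _) h2 2))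
    refine Finset.sum_congr rfl fun g _ => ?_
    rw [EuclideanSpace.norm_sq_eq]
    refine Finset.sum_congr rfl fun c _ => ?_
    have e1 : (ContinuousLinearMap.adjoint D (dd 1 b)) g c =
        ⟪dd g c, ContinuousLinearMap.adjoint D (dd 1 b)⟫_ℂ := by
      rw [hdd]; simp only
      rw [lp.inner_single_left, EuclideanSpace.inner_single_left]
      simp
    have e2 : ⟪dd g c, ContinuousLinearMap.adjoint D (dd 1 b)⟫_ℂ = ⟪D (dd g c), dd 1 b⟫_ℂ :=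
      ContinuousLinearMap.adjoint_inner_right D _ _
    have e3 : ∀ φ : lp (fun _ : G => EuclideanSpace ℂ Q) 2,
        ⟪φ, dd 1 b⟫_ℂ = (starRingEnd ℂ) ((φ 1) b) := by
      intro φ
      rw [hdd]
      simp only
      rw [lp.inner_single_right, EuclideanSpace.inner_single_right]
      simp
    rw [e1, e2, e3, RCLike.norm_conj]
  have hrowE : ∑ i : E × Q, ‖((Real.sqrt (F i.1) * w 1 (i.1 : G) : ℝ) : ℂ) •
      Y i.1 (EuclideanSpace.single i.2 1) - β i.1 i.2‖ ^ 2 ≤ (Real.sqrt n * ‖D‖) ^ 2 := by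
    rw [Fintype.sum_prod_type]
    have e1 : ∀ (g : E) (b : Q), ‖((Real.sqrt (F g) * w 1 (g : G) : ℝ) : ℂ) •
        Y g (EuclideanSpace.single b 1) - β g b‖ ^ 2 = ∑ c : Q, ‖(D (dd g b) 1) c‖ ^ 2 := by
      intro g b
      rw [← hTrow g g.2 b, ← hBrow, ← hDapp, EuclideanSpace.norm_sq_eq]
    simp only [e1]
    rw [Finset.sum_coe_sort E (fun g => ∑ b : Q, ∑ c : Q, ‖(D (dd g b) 1) c‖ ^ 2)]
    have e2 : ∑ g ∈ E, ∑ b : Q, ∑ c : Q, ‖(D (dd g b) 1) c‖ ^ 2 =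
        ∑ c : Q, ∑ g ∈ E, ∑ b : Q, ‖(D (dd g b) 1) c‖ ^ 2 := by
      calc ∑ g ∈ E, ∑ b : Q, ∑ c : Q, ‖(D (dd g b) 1) c‖ ^ 2
          = ∑ g ∈ E, ∑ c : Q, ∑ b : Q, ‖(D (dd g b) 1) c‖ ^ 2 :=
            Finset.sum_congr rfl fun g _ => Finset.sum_comm
        _ = _ := Finset.sum_comm
    rw [e2]
    refine (Finset.sum_le_sum fun c _ => hrowb c).trans ?_
    rw [Finset.sum_const, Finset.card_univ, nsmul_eq_mul, mul_pow, Real.sq_sqrt hn0.le, hn]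
  -- size of the column
  have hw2 : ∀ s v, w s v ^ 2 = w s v := by
    intro s v
    rcases hw s v with h | h <;> rw [h] <;> norm_num
  have hw0 : ∀ s v, 0 ≤ w s v := by
    intro s v
    rcases hw s v with h | h <;> rw [h] <;> norm_num
  have nrm : ∀ (g : G) (t : ℝ) (z : EuclideanSpace ℂ Q), 0 ≤ t → t ^ 2 = t →
      ‖((Real.sqrt (F g) * t : ℝ) : ℂ) • z‖ ^ 2 = F g * t * ‖z‖ ^ 2 := by
    intro g t z ht ht2
    rw [norm_smul, Complex.norm_real, Real.norm_eq_abs, mul_pow, sq_abs, mul_pow,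
      Real.sq_sqrt (hF g), ht2]
  have h1 : Real.sqrt (n * ((1 - δ) * (1 - ε))) ^ 2 ≤ ∑ i : E × Q,
      ‖((Real.sqrt (F i.1) * w (i.1 : G)⁻¹ 1 : ℝ) : ℂ) • Y i.1 (EuclideanSpace.single i.2 1)‖ ^ 2 := by
    have hpos : 0 ≤ n * ((1 - δ) * (1 - ε)) :=
      mul_nonneg hn0.le (mul_nonneg (by linarith) (by linarith))
    rw [Real.sq_sqrt hpos, Fintype.sum_prod_type]
    have e1 : ∀ g : E, F g * w (g : G)⁻¹ 1 * ((1 - ε) * n) ≤ ∑ b : Q,
        ‖((Real.sqrt (F g) * w (g : G)⁻¹ 1 : ℝ) : ℂ) • Y g (EuclideanSpace.single b 1)‖ ^ 2 := by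
      intro g
      have e2 : ∀ b : Q, ‖((Real.sqrt (F g) * w (g : G)⁻¹ 1 : ℝ) : ℂ) •
          Y g (EuclideanSpace.single b 1)‖ ^ 2 =
          F g * w (g : G)⁻¹ 1 * ‖Y g (EuclideanSpace.single b 1)‖ ^ 2 :=
        fun b => nrm g _ _ (hw0 _ _) (hw2 _ _)
      simp only [e2]
      rw [← Finset.mul_sum]
      apply mul_le_mul_of_nonneg_left _ (mul_nonneg (hF _) (hw0 _ _))
      rw [hn]
      exact hYtr g g.2
    refine le_trans ?_ (Finset.sum_le_sum fun g _ => e1 g)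
    rw [← Finset.sum_mul, Finset.sum_coe_sort E (fun g => F g * w g⁻¹ 1)]
    have e3 : 0 ≤ (1 - ε) * n := mul_nonneg (by linarith) hn0.le
    nlinarith [mul_le_mul_of_nonneg_right hcol e3]
  have h4 : ∑ i : E × Q, ‖((Real.sqrt (F i.1) * w 1 (i.1 : G) : ℝ) : ℂ) •
      Y i.1 (EuclideanSpace.single i.2 1)‖ ^ 2 ≤ Real.sqrt (n * δ) ^ 2 := by
    rw [Real.sq_sqrt (mul_nonneg hn0.le hδ0), Fintype.sum_prod_type]
    have e1 : ∀ g : E, ∑ b : Q,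
        ‖((Real.sqrt (F g) * w 1 (g : G) : ℝ) : ℂ) • Y g (EuclideanSpace.single b 1)‖ ^ 2 ≤
        F g * w 1 (g : G) * n := by
      intro g
      have e2 : ∀ b : Q, ‖((Real.sqrt (F g) * w 1 (g : G) : ℝ) : ℂ) •
          Y g (EuclideanSpace.single b 1)‖ ^ 2 =
          F g * w 1 (g : G) * ‖Y g (EuclideanSpace.single b 1)‖ ^ 2 :=
        fun b => nrm g _ _ (hw0 _ _) (hw2 _ _)
      simp only [e2]
      rw [← Finset.mul_sum]
      apply mul_le_mul_of_nonneg_left _ (mul_nonneg (hF _) (hw0 _ _))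
      have e3 : ∀ b : Q, ‖Y g (EuclideanSpace.single b 1)‖ ^ 2 ≤ 1 := by
        intro b
        have h5 := (Y g).le_opNorm (EuclideanSpace.single b 1)
        have h6 : ‖(EuclideanSpace.single b (1 : ℂ) : EuclideanSpace ℂ Q)‖ = 1 := by simp
        rw [h6, mul_one] at h5
        exact pow_le_one₀ (norm_nonneg _) (h5.trans (hY g))
      refine (Finset.sum_le_sum fun b _ => e3 b).trans ?_
      rw [Finset.sum_const, Finset.card_univ, nsmul_eq_mul, mul_one, hn]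
    refine (Finset.sum_le_sum fun g _ => e1 g).trans ?_
    rw [← Finset.sum_mul, Finset.sum_coe_sort E (fun g => F g * w 1 g)]
    nlinarith
  have main := tri _ _ _ _ _ _ _ (Real.sqrt_nonneg _)
    (mul_nonneg (Real.sqrt_nonneg n) (norm_nonneg D))
    (mul_nonneg (Real.sqrt_nonneg n) (norm_nonneg D)) (Real.sqrt_nonneg _) h1 hcolE hrowE h4
  rw [Real.sqrt_mul hn0.le, Real.sqrt_mul hn0.le] at main
  have hs : 0 < Real.sqrt n := Real.sqrt_pos.2 hn0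
  have : Real.sqrt n * (Real.sqrt ((1 - δ) * (1 - ε))) ≤
      Real.sqrt n * (2 * ‖D‖ + Real.sqrt δ) := by linarith
  have := le_of_mul_le_mul_left this hs
  linarith

end Pool.Agent.TH227.J5186
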